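import Mathlib

/-!
# Teichmüller vectors of non-commutative polynomials can be linearly dependent

Let `x, y` be two different variables. The six polynomials `A y B` with `A, B` polynomials in `x` of
degree one or two and `A B = x³ - x` satisfy `(A y B) ^ n = A W B` with a polynomial `W` which does
not depend on the factorization. As the six products `A(a) B(b)` are linearly dependent in the
polynomial ring in two commuting variables `a, b`, the powers with any fixed exponent `n ≥ 1`
satisfy one and the same linear relation.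
-/

set_option autoImplicit false

namespace Pool.Agent.Results.MP_8dadf2_al.Dependent

/-- The Teichmüller vector `⟨r⟩ = (r, r ^ p, r ^ (p ^ 2), r ^ (p ^ 3), …)` of an element of a
ring. -/
def teichmuller {A : Type*} [Ring A] (p : ℕ) (r : A) : ℕ → A := fun k => r ^ p ^ k

section construction

variable {A : Type*} [Ring A] (x y : A)

/-- The left factors. -/
def lf : Fin 6 → A :=
  ![x, x - 1, x + 1, (x - 1) * (x + 1), x * (x + 1), x * (x - 1)]

/-- The right factors. -/
def rf : Fin 6 → A :=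
  ![(x - 1) * (x + 1), x * (x + 1), x * (x - 1), x, x - 1, x + 1]

/-- The six polynomials. -/
def ff (i : Fin 6) : A := lf x i * y * rf x i

/-- The coefficients of the relation. -/
def cc : Fin 6 → ℤ := ![2, -1, -1, 2, -1, -1]

theorem rf_mul_lf (i : Fin 6) : rf x i * lf x i = x * x * x - x := by
  fin_cases i <;> simp [rf, lf] <;> noncomm_ring

theorem rel (w : A) : ∑ i, cc i • (lf x i * w * rf x i) = 0 := by
  simp only [Fin.sum_univ_succ, cc, lf, rf, Fin.sum_univ_zero, Matrix.cons_val_zero,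
    Matrix.cons_val_succ, Fin.succ_zero_eq_one]
  simp
  noncomm_ring

/-- the middle factor of the powers. -/
def ww : ℕ → A
  | 0 => y
  | n + 1 => ww n * (x * x * x - x) * y

theorem ff_pow (i : Fin 6) (n : ℕ) : ff x y i ^ (n + 1) = lf x i * ww x y n * rf x i := by
  induction n with
  | zero => simp [ff, ww]
  | succ n ih =>
    rw [pow_succ, ih, ww, ff, ← rf_mul_lf x i]
    simp only [mul_assoc]

theorem sum_pow (n : ℕ) (hn : 1 ≤ n) : ∑ i, cc i • ff x y i ^ n = 0 := by
  obtain ⟨m, rfl⟩ := Nat.exists_eq_add_of_le' hn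
  simp only [ff_pow]
  exact rel x _

end construction

/-- The values of the six polynomials in `2 × 2` matrices have different positive corner entries. -/
theorem separate (i : Fin 6) :
    ff (!![2, 0; 0, 5] : Matrix (Fin 2) (Fin 2) ℤ) !![0, 1; 0, 0] i 0 1 =
      (![48, 30, 60, 15, 24, 12] : Fin 6 → ℤ) i := by
  fin_cases i <;> simp [ff, lf, rf, Matrix.one_fin_two] <;> norm_num

/-- **Q1 is answered in the negative, for every `p` and every set of at least two variables.**
For every odd prime `p` and every set `S` with at least two elements there are six pairwise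
distinct non-zero elements `f i` of the free ring `ℤ{S}` with `f i ≠ - f j` for `i ≠ j`, whose
Teichmüller vectors are linearly dependent over `ℤ`; more precisely, with the non-zero integers
`c = (2, -1, -1, 2, -1, -1)`, one has `∑ c i • ⟨f i⟩ = 0`, and even `∑ c i • (f i) ^ n = 0` for all
`n ≥ 1`. -/
theorem result (p : ℕ) (_hp : p.Prime) (_hodd : p ≠ 2) (S : Type*) [Nontrivial S] :
    ∃ f : Fin 6 → FreeAlgebra ℤ S,
      Function.Injective f ∧ (∀ i, f i ≠ 0) ∧ (∀ i j, i ≠ j → f i ≠ - f j) ∧
      (∀ n : ℕ, 1 ≤ n → ∑ i, (![2, -1, -1, 2, -1, -1] : Fin 6 → ℤ) i • f i ^ n = 0) ∧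
      ∑ i, (![2, -1, -1, 2, -1, -1] : Fin 6 → ℤ) i • teichmuller p (f i) = 0 ∧
      ¬ LinearIndependent ℤ (fun i => teichmuller p (f i)) := by
  classical
  obtain ⟨s, t, hst⟩ := exists_pair_ne S
  let F : Fin 6 → FreeAlgebra ℤ S := ff (FreeAlgebra.ι ℤ s) (FreeAlgebra.ι ℤ t)
  let φ : FreeAlgebra ℤ S →ₐ[ℤ] Matrix (Fin 2) (Fin 2) ℤ :=
    FreeAlgebra.lift ℤ (fun u => if u = s then !![2, 0; 0, 5] else !![0, 1; 0, 0])
  have hs : φ (FreeAlgebra.ι ℤ s) = !![2, 0; 0, 5] := by
    simp [φ, FreeAlgebra.lift_ι_apply]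
  have ht : φ (FreeAlgebra.ι ℤ t) = !![0, 1; 0, 0] := by
    simp [φ, FreeAlgebra.lift_ι_apply, hst.symm]
  have hφ : ∀ i, φ (F i) 0 1 = (![48, 30, 60, 15, 24, 12] : Fin 6 → ℤ) i := by
    intro i
    have h1 : φ (F i) = ff (!![2, 0; 0, 5] : Matrix (Fin 2) (Fin 2) ℤ) !![0, 1; 0, 0] i := by
      have hl : ∀ j, φ (lf (FreeAlgebra.ι ℤ s) j) =
          lf (!![2, 0; 0, 5] : Matrix (Fin 2) (Fin 2) ℤ) j := by
        intro j; fin_cases j <;> simp [lf, hs]
      have hr : ∀ j, φ (rf (FreeAlgebra.ι ℤ s) j) =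
          rf (!![2, 0; 0, 5] : Matrix (Fin 2) (Fin 2) ℤ) j := by
        intro j; fin_cases j <;> simp [rf, hs]
      simp only [F, ff, map_mul, hl, hr, ht]
    rw [h1, separate]
  have hpos : ∀ i, 0 < (![48, 30, 60, 15, 24, 12] : Fin 6 → ℤ) i := by decide
  have hinj : Function.Injective (![48, 30, 60, 15, 24, 12] : Fin 6 → ℤ) := by decide
  have hpow : ∀ n : ℕ, 1 ≤ n →
      ∑ i, (![2, -1, -1, 2, -1, -1] : Fin 6 → ℤ) i • F i ^ n = 0 :=
    fun n hn => sum_pow _ _ n hn
  have hT : ∑ i, (![2, -1, -1, 2, -1, -1] : Fin 6 → ℤ) i • teichmuller p (F i) = 0 := by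
    funext k
    rw [Finset.sum_apply]
    exact hpow (p ^ k) (Nat.one_le_pow _ _ _hp.pos)
  refine ⟨F, ?_, ?_, ?_, hpow, hT, ?_⟩
  · intro i j hij
    apply hinj
    rw [← hφ i, ← hφ j, hij]
  · intro i h0
    have h1 := hφ i
    rw [h0, map_zero, Matrix.zero_apply] at h1
    have h2 := hpos i
    omega
  · intro i j _ h
    have h1 := hφ i
    rw [h, map_neg, Matrix.neg_apply, hφ j] at h1
    have h2 := hpos i
    have h3 := hpos j
    omega
  · intro hli
    rw [Fintype.linearIndependent_iff] at hli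
    have := hli _ hT 0
    simp at this

end Pool.Agent.Results.MP_8dadf2_al.Dependent
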